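import Pool.Agent.Hhelper28.Rosenthal.Construct

/-!
The main inequality.
-/

open Filter Topology Set

namespace Pool.Agent.Hhelper28.Rosenthal

noncomputable def dl (r : ℕ) (k : ℕ) : ℝ := (1/4)^(r+k)

def nn (r : ℕ) (k : ℕ) : ℕ := 4*(r+k)

noncomputable def kap (x : ℕ × ℕ) : ℝ := (3/4)^x.1 * (1/2)^x.2

noncomputable def piece (x : ℕ × ℕ) : Set (DD → ℝ) := (fun f z => kap x * f z) '' AA (dl x.1) (nn x.1) B0 x.2

/-- the countable compact set -/
noncomputable def KK : Set (DD → ℝ) := B0 ∪ insert 0 (⋃ x, piece x)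

lemma dl_pos (r k : ℕ) : 0 < dl r k := by unfold dl; positivity

lemma kap_pos (x : ℕ × ℕ) : 0 < kap x := by unfold kap; positivity

lemma kap_le (x : ℕ × ℕ) : kap x ≤ 1 := by
  unfold kap
  have h1 : ((3:ℝ)/4)^x.1 ≤ 1 := pow_le_one₀ (by norm_num) (by norm_num)
  have h2 : ((1:ℝ)/2)^x.2 ≤ 1 := pow_le_one₀ (by norm_num) (by norm_num)
  exact mul_le_one₀ h1 (by positivity) h2

lemma good_AA' (x : ℕ × ℕ) : Good (AA (dl x.1) (nn x.1) B0 x.2) := good_AA (dl_pos x.1) good_B0 x.2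

lemma good_KK : Good KK := by
  refine ⟨?_, ?_, ?_⟩
  · refine good_B0.compact.union (isCompact_union (κ := kap) ?_ ?_ ?_)
    · intro x
      refine (good_AA' x).compact.image ?_
      refine continuous_pi fun z => ?_
      fun_prop
    · rintro x _ ⟨f, hf, rfl⟩ z
      beta_reduce
      rw [abs_mul, abs_of_pos (kap_pos x)]
      have := (good_AA' x).bdd f hf z
      have := kap_pos x
      nlinarith
    · have h1 : Summable kap := by
        unfold kap
        exact (summable_geometric_of_lt_one (by norm_num) (by norm_num : (3:ℝ)/4 < 1)).mul_of_nonneg 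
          (summable_geometric_of_lt_one (by norm_num) (by norm_num : (1:ℝ)/2 < 1)) (fun n => by positivity) (fun n => by positivity)
      exact h1.tendsto_cofinite_zero
  · refine good_B0.countable.union ((countable_iUnion fun x => (good_AA' x).countable.image _).insert _)
  · rintro f (hf | rfl | hf) z
    · exact good_B0.bdd f hf z
    · simp
    · obtain ⟨x, ⟨g, hg, rfl⟩⟩ := mem_iUnion.1 hf
      beta_reduce
      rw [abs_mul, abs_of_pos (kap_pos x)]
      have h1 := (good_AA' x).bdd g hg z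
      exact mul_le_one₀ (kap_le x) (abs_nonneg _) h1

variable {μ : DD →₀ ℝ} {P : ℝ}

lemma bound_nonneg (hP : ∀ f ∈ KK, |ev μ f| ≤ P) (y : DD) (r : ℕ) : |ev μ (uu y r)| ≤ 4 * P * (1/3)^r := by
  have hP0 : 0 ≤ P := (abs_nonneg _).trans (hP 0 (Or.inr (mem_insert _ _)))
  have ht : ∀ k, ∀ f ∈ AA (dl r) (nn r) B0 k, |ev μ f| ≤ P / kap (r, k) := by
    intro k f hf
    rw [le_div_iff₀ (kap_pos _), mul_comm]
    have h1 : (fun z => kap (r, k) * f z) ∈ KK := by
      refine Or.inr (mem_insert_of_mem _ (mem_iUnion.2 ⟨(r, k), ⟨f, hf, rfl⟩⟩))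
    have h2 := hP _ h1
    rw [ev_mul, abs_mul, abs_of_pos (kap_pos _)] at h2
    exact h2
  have h1 : ∀ K : ℕ, |ev μ (uu y r)| ≤ 4 * P * (1/3)^r + (∑ z ∈ μ.support, |μ z|) * dl r K := by
    intro K
    have h2 := rep_series (δ := dl r) (n := nn r) (S := B0) (dl_pos r) good_B0 (by
      intro k
      unfold nn dl
      have e1 : ((1:ℝ)/2)^(4*(r+k)) = (1/4)^(r+k) * (1/4)^(r+k) := by
        rw [pow_mul, ← mul_pow]; norm_num
      rw [e1, ← add_assoc, pow_succ]
      apply le_of_eq; ring) (rep_uu y r) (by simpa [dl] using abs_uu_le y r) μ _ ht K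
    refine h2.trans ?_
    have h3 : ∑ j ∈ Finset.range K, 2 * dl r j * (P / kap (r, j)) ≤ 4 * P * (1/3)^r := by
      have e : ∀ j ∈ Finset.range K, 2 * dl r j * (P / kap (r, j)) = (2 * P * (1/3)^r) * (1/2)^j := by
        intro j _
        unfold dl kap
        have h4 : ((3:ℝ)/4)^r ≠ 0 := by positivity
        have h5 : ((1:ℝ)/2)^j ≠ 0 := by positivity
        have e1 : ((1:ℝ)/4)^(r+j) = (1/3)^r * (3/4)^r * ((1/2)^j * (1/2)^j) := by
          rw [pow_add, ← mul_pow, ← mul_pow]; norm_num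
        rw [e1]
        field_simp
      rw [Finset.sum_congr rfl e, ← Finset.mul_sum]
      have h4 : ∑ j ∈ Finset.range K, ((1:ℝ)/2)^j ≤ 2 := sum_geometric_two_le K
      have h5 : 0 ≤ 2 * P * (1/3)^r := by positivity
      calc 2 * P * (1/3)^r * ∑ j ∈ Finset.range K, ((1:ℝ)/2)^j ≤ 2 * P * (1/3)^r * 2 := by gcongr
        _ = _ := by ring
    linarith
  have h2 : Tendsto (fun K => 4 * P * (1/3)^r + (∑ z ∈ μ.support, |μ z|) * dl r K) atTop (𝓝 (4 * P * (1/3)^r + (∑ z ∈ μ.support, |μ z|) * 0)) := by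
    refine tendsto_const_nhds.add (tendsto_const_nhds.mul ?_)
    unfold dl
    have h3 := tendsto_pow_atTop_nhds_zero_of_lt_one (r := (1/4:ℝ)) (by norm_num) (by norm_num)
    exact h3.comp (tendsto_add_atTop_nat r |>.congr fun k => by ring)
  rw [mul_zero, add_zero] at h2
  exact ge_of_tendsto' h2 h1

lemma bound_neg (hP : ∀ f ∈ KK, |ev μ f| ≤ P) (y : DD) (R : ℤ) : |ev μ (uu y R)| ≤ P := by
  obtain ⟨ι, s, p, γ, hp, hp1, hγ, hu, _⟩ := rep_uu y R
  have e : uu y R = fun z => ∑ i ∈ s, p i * γ i z := by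
    funext z; rw [hu]
  rw [e]
  exact abs_ev_avg_le μ hp hp1 fun i hi => hP _ (Or.inl (hγ i hi))

open Classical in
lemma phi_eq (y z : DD) {M : ℕ} (hM : ∀ m ∈ y.1.support, z.1 m ≠ 0 → |lev (z.1 m) - lev (y.1 m)| < M) : 
    phi y z = ∑ n ∈ Finset.range M, (2:ℝ)^((n:ℤ)+1) * uu y n z + 
      ∑ n ∈ Finset.range M, (2:ℝ)^(-((n:ℤ)+1)+1) * uu y (-((n:ℤ)+1)) z := by
  unfold phi uu
  simp only [Finset.mul_sum]
  rw [Finset.sum_comm, Finset.sum_comm (s := Finset.range M), ← Finset.sum_add_distrib]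
  refine Finset.sum_congr rfl fun m hm => ?_
  have hm' := Finsupp.mem_support_iff.1 hm
  simp only [term_eq y _ z hm']
  by_cases hz : z.1 m = 0
  · simp [hz]
  · have h1 := hM m hm hz
    rw [abs_lt] at h1
    simp only [ne_eq, hz, not_false_eq_true, true_and]
    rcases le_or_gt 0 (lev (z.1 m) - lev (y.1 m)) with h2 | h2
    · obtain ⟨n0, hn0⟩ := Int.eq_ofNat_of_zero_le h2
      have hn0M : n0 < M := by omega
      rw [Finset.sum_eq_single_of_mem n0 (Finset.mem_range.2 hn0M), if_pos (by omega), Finset.sum_eq_zero, add_zero]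
      · intro n _; rw [if_neg (by omega)]
      · intro n _ hn; rw [if_neg (by omega)]
    · obtain ⟨n0, hn0⟩ := Int.eq_ofNat_of_zero_le (show 0 ≤ -(lev (z.1 m) - lev (y.1 m)) - 1 by omega)
      have hn0M : n0 < M := by omega
      have hz1 : ∑ n ∈ Finset.range M, (if lev (z.1 m) = lev (y.1 m) + (n:ℤ) then y.1 m * z.1 m else 0) = 0 := by
        refine Finset.sum_eq_zero fun n _ => ?_
        rw [if_neg (by omega)]
      rw [hz1, zero_add]
      rw [Finset.sum_eq_single_of_mem n0 (Finset.mem_range.2 hn0M), if_pos (by omega)]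
      · intro n _ hn; rw [if_neg (by omega)]

theorem phi_bound (hP : ∀ f ∈ KK, |ev μ f| ≤ P) (y : DD) : |ev μ (phi y)| ≤ 26 * P := by
  have hP0 : 0 ≤ P := (abs_nonneg _).trans (hP 0 (Or.inr (mem_insert _ _)))
  obtain ⟨M, hM⟩ : ∃ M : ℕ, ∀ z ∈ μ.support, ∀ m ∈ y.1.support, z.1 m ≠ 0 → |lev (z.1 m) - lev (y.1 m)| < M := by
    refine ⟨(∑ z ∈ μ.support, ∑ m ∈ y.1.support, (lev (z.1 m) - lev (y.1 m)).natAbs) + 1, fun z hz m hm _ => ?_⟩
    have h1 : (lev (z.1 m) - lev (y.1 m)).natAbs ≤ ∑ m ∈ y.1.support, (lev (z.1 m) - lev (y.1 m)).natAbs := 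
      Finset.single_le_sum (f := fun m => (lev (z.1 m) - lev (y.1 m)).natAbs) (fun _ _ => Nat.zero_le _) hm
    have h2 : ∑ m ∈ y.1.support, (lev (z.1 m) - lev (y.1 m)).natAbs ≤ 
        ∑ z ∈ μ.support, ∑ m ∈ y.1.support, (lev (z.1 m) - lev (y.1 m)).natAbs := 
      Finset.single_le_sum (f := fun z : DD => ∑ m ∈ y.1.support, (lev (z.1 m) - lev (y.1 m)).natAbs) (fun _ _ => Nat.zero_le _) hz
    rw [Int.abs_eq_natAbs]
    omega
  have e : ev μ (phi y) = ∑ n ∈ Finset.range M, (2:ℝ)^((n:ℤ)+1) * ev μ (uu y n) + 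
      ∑ n ∈ Finset.range M, (2:ℝ)^(-((n:ℤ)+1)+1) * ev μ (uu y (-((n:ℤ)+1))) := by
    have h1 : ev μ (phi y) = ev μ (fun z => ∑ n ∈ Finset.range M, (2:ℝ)^((n:ℤ)+1) * uu y n z + 
      ∑ n ∈ Finset.range M, (2:ℝ)^(-((n:ℤ)+1)+1) * uu y (-((n:ℤ)+1)) z) := by
      unfold ev
      refine Finset.sum_congr rfl fun z hz => ?_
      rw [phi_eq y z (hM z hz)]
    rw [h1, ev_add, ev_sum, ev_sum]
    simp only [ev_mul]
  rw [e]
  refine (abs_add_le _ _).trans ?_
  have h1 : |∑ n ∈ Finset.range M, (2:ℝ)^((n:ℤ)+1) * ev μ (uu y n)| ≤ 24 * P := by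
    refine (Finset.abs_sum_le_sum_abs _ _).trans ?_
    calc ∑ n ∈ Finset.range M, |(2:ℝ)^((n:ℤ)+1) * ev μ (uu y n)| ≤ ∑ n ∈ Finset.range M, 8 * P * (2/3)^n := by
          refine Finset.sum_le_sum fun n _ => ?_
          rw [abs_mul, abs_of_pos (by positivity : (0:ℝ) < 2^((n:ℤ)+1)), zpow_add₀ two_ne_zero, zpow_one, zpow_natCast]
          have h2 := bound_nonneg hP y n
          have h3 : ((2:ℝ)/3)^n = 2^n * (1/3)^n := by rw [← mul_pow]; norm_num
          rw [h3]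
          calc 2^n * 2 * |ev μ (uu y n)| ≤ 2^n * 2 * (4 * P * (1/3)^n) := by gcongr
            _ = _ := by ring
      _ = 8 * P * ∑ n ∈ Finset.range M, ((2:ℝ)/3)^n := by rw [Finset.mul_sum]
      _ ≤ 8 * P * 3 := by
          gcongr
          have h2 := (summable_geometric_of_lt_one (by norm_num) (by norm_num : (2:ℝ)/3 < 1)).sum_le_tsum (Finset.range M) (fun n _ => by positivity)
          rw [tsum_geometric_of_lt_one (by norm_num) (by norm_num : (2:ℝ)/3 < 1)] at h2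
          norm_num at h2 ⊢
          exact h2
      _ = 24 * P := by ring
  have h2 : |∑ n ∈ Finset.range M, (2:ℝ)^(-((n:ℤ)+1)+1) * ev μ (uu y (-((n:ℤ)+1)))| ≤ 2 * P := by
    refine (Finset.abs_sum_le_sum_abs _ _).trans ?_
    calc ∑ n ∈ Finset.range M, |(2:ℝ)^(-((n:ℤ)+1)+1) * ev μ (uu y (-((n:ℤ)+1)))| ≤ ∑ n ∈ Finset.range M, P * (1/2)^n := by
          refine Finset.sum_le_sum fun n _ => ?_
          rw [show -((n:ℤ)+1)+1 = -(n:ℤ) by ring, abs_mul, abs_of_pos (by positivity : (0:ℝ) < 2^(-(n:ℤ))), zpow_neg, zpow_natCast]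
          have h2 := bound_neg hP y (-((n:ℤ)+1))
          have h3 : ((1:ℝ)/2)^n = (2^n)⁻¹ := by rw [one_div, inv_pow]
          rw [h3, mul_comm]
          gcongr
      _ = P * ∑ n ∈ Finset.range M, ((1:ℝ)/2)^n := by rw [Finset.mul_sum]
      _ ≤ P * 2 := by
          gcongr
          exact sum_geometric_two_le M
      _ = 2 * P := by ring
  linarith

end Pool.Agent.Hhelper28.Rosenthal
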