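import Pool.Agent.Hhelper28.Rosenthal.Rep

/-!
The countable compact set of functions on the finitely supported vectors of the unit ball of `ℓ²`.
-/

open Filter Topology Set

namespace Pool.Agent.Hhelper28.Rosenthal

/-- union of compact sets shrinking to `0` -/
lemma isCompact_union {D ι : Type} {S : ι → Set (D → ℝ)} {κ : ι → ℝ} (hS : ∀ i, IsCompact (S i))
    (hb : ∀ i, ∀ f ∈ S i, ∀ z, |f z| ≤ κ i) (hκ : Tendsto κ cofinite (𝓝 0)) : 
    IsCompact (insert 0 (⋃ i, S i)) := by
  rw [isCompact_iff_ultrafilter_le_nhds]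
  intro 𝒰 h𝒰
  rw [le_principal_iff] at h𝒰
  by_cases h : ∃ i, S i ∈ 𝒰
  · obtain ⟨i, hi⟩ := h
    obtain ⟨x, hx, hx'⟩ := (isCompact_iff_ultrafilter_le_nhds.1 (hS i)) 𝒰 (le_principal_iff.2 hi)
    exact ⟨x, mem_insert_of_mem _ (mem_iUnion.2 ⟨i, hx⟩), hx'⟩
  · push Not at h
    refine ⟨0, mem_insert _ _, ?_⟩
    rw [← tendsto_id', tendsto_pi_nhds]
    intro z
    rw [Metric.tendsto_nhds]
    intro ε hε
    have h1 : ∀ᶠ i in cofinite, |κ i| < ε := by
      have := (Metric.tendsto_nhds.1 hκ) ε hε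
      simpa using this
    have hfin : {i | ¬ |κ i| < ε}.Finite := h1
    have h2 : (⋃ i ∈ {i | ¬ |κ i| < ε}, S i) ∉ 𝒰 := by
      intro hm
      rw [Ultrafilter.finite_biUnion_mem_iff hfin] at hm
      obtain ⟨i, _, hi⟩ := hm
      exact h i hi
    have h3 := Ultrafilter.compl_mem_iff_notMem.2 h2
    filter_upwards [h𝒰, h3] with f hf hf'
    rcases hf with rfl | hf
    · simpa using hε
    · obtain ⟨i, hi⟩ := mem_iUnion.1 hf
      have h4 : |κ i| < ε := by
        by_contra hc
        exact hf' (mem_biUnion hc hi)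
      simp only [id, Pi.zero_apply, Real.dist_eq, sub_zero]
      exact (hb i f hi z).trans_lt ((le_abs_self _).trans_lt h4)

/-- squared euclidean norm -/
noncomputable def nsq (z : ℕ →₀ ℝ) : ℝ := ∑ m ∈ z.support, (z m)^2

lemma nsq_nonneg (z : ℕ →₀ ℝ) : 0 ≤ nsq z := Finset.sum_nonneg fun m _ => sq_nonneg _

lemma sum_sq_le_nsq (z : ℕ →₀ ℝ) (s : Finset ℕ) : ∑ m ∈ s, (z m)^2 ≤ nsq z := by
  unfold nsq
  classical
  calc ∑ m ∈ s, (z m)^2 = ∑ m ∈ s with z m ≠ 0, (z m)^2 := by
        rw [Finset.sum_filter]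
        refine Finset.sum_congr rfl fun m _ => ?_
        by_cases h : z m = 0
        · simp [h]
        · simp [h]
    _ ≤ ∑ m ∈ z.support, (z m)^2 := by
        refine Finset.sum_le_sum_of_subset_of_nonneg ?_ (fun m _ _ => sq_nonneg _)
        intro m hm
        rw [Finset.mem_filter] at hm
        exact Finsupp.mem_support_iff.2 hm.2

/-- finitely supported vectors in the unit ball of `ℓ²` -/
def DD : Type := {z : ℕ →₀ ℝ // nsq z ≤ 1}

/-- dyadic level of a real number -/
noncomputable def lev (t : ℝ) : ℤ := Int.log 2 |t|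

lemma lev_le {t : ℝ} (ht : t ≠ 0) : (2:ℝ) ^ lev t ≤ |t| := by
  have := Int.zpow_log_le_self (R := ℝ) (b := 2) (r := |t|) one_lt_two (abs_pos.2 ht)
  unfold lev
  exact_mod_cast this

lemma lt_lev (t : ℝ) : |t| < (2:ℝ) ^ (lev t + 1) := by
  have := Int.lt_zpow_succ_log_self (R := ℝ) (b := 2) one_lt_two |t|
  unfold lev
  exact_mod_cast this

open Classical in
/-- elementary functions -/
noncomputable def beta (m : ℕ) (l : ℤ) (z : DD) : ℝ := 
  if z.1 m ≠ 0 ∧ lev (z.1 m) = l then z.1 m / 2^l / 2 else 0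

lemma abs_beta_le (m : ℕ) (l : ℤ) (z : DD) : |beta m l z| ≤ 1 := by
  unfold beta
  split_ifs with h
  · have h1 := lt_lev (z.1 m)
    rw [h.2, zpow_add₀ two_ne_zero, zpow_one] at h1
    have h2 : (0:ℝ) < 2^l := by positivity
    rw [abs_div, abs_div, abs_of_pos h2, abs_two, div_div, div_le_one (by positivity)]
    exact h1.le
  · simp

/-- the starting null sequence -/
noncomputable def gen (x : ℕ × ℤ × Bool) (z : DD) : ℝ := (if x.2.2 then 1 else -1) * beta x.1 x.2.1 z

noncomputable def B0 : Set (DD → ℝ) := insert 0 (range gen)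

lemma good_B0 : Good B0 := by
  refine ⟨?_, (countable_range _).insert _, ?_⟩
  · refine Filter.Tendsto.isCompact_insert_range_of_cofinite ?_
    rw [tendsto_pi_nhds]
    intro z
    refine tendsto_const_nhds.congr' ?_
    have hfin : ((z.1.support : Set ℕ) ×ˢ (((fun m => lev (z.1 m)) '' (z.1.support : Set ℕ)) ×ˢ (univ : Set Bool))).Finite := 
      (Finset.finite_toSet _).prod (((Finset.finite_toSet _).image _).prod finite_univ)
    rw [EventuallyEq, eventually_cofinite]
    refine hfin.subset ?_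
    rintro ⟨m, l, b⟩ h
    have h1 : beta m l z ≠ 0 := by
      intro h0
      apply h
      simp [gen, h0]
    unfold beta at h1
    split_ifs at h1 with h2
    · refine ⟨Finsupp.mem_support_iff.2 h2.1, ⟨m, Finsupp.mem_support_iff.2 h2.1, h2.2⟩, mem_univ _⟩
    · exact absurd rfl h1
  · rintro f (rfl | ⟨x, rfl⟩) z
    · simp
    · unfold gen
      rw [abs_mul]
      have : |(if x.2.2 then (1:ℝ) else -1)| = 1 := by split_ifs <;> simp
      rw [this, one_mul]
      exact abs_beta_le _ _ _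

/-- the pairing -/
noncomputable def phi (y z : DD) : ℝ := ∑ m ∈ y.1.support, y.1 m * z.1 m

/-- weights -/
noncomputable def wgt (y : DD) (m : ℕ) : ℝ := |y.1 m| * 2 ^ lev (y.1 m)

lemma wgt_nonneg (y : DD) (m : ℕ) : 0 ≤ wgt y m := by unfold wgt; positivity

lemma sum_wgt_le (y : DD) : ∑ m ∈ y.1.support, wgt y m ≤ 1 := by
  refine le_trans ?_ y.2
  unfold nsq
  refine Finset.sum_le_sum fun m hm => ?_
  unfold wgt
  have := lev_le (Finsupp.mem_support_iff.1 hm)
  rw [← sq_abs, sq]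
  exact mul_le_mul_of_nonneg_left this (abs_nonneg _)

/-- the component of `phi y` of ratio class `R`, normalised -/
noncomputable def uu (y : DD) (R : ℤ) (z : DD) : ℝ := 
  ∑ m ∈ y.1.support, wgt y m * gen (m, lev (y.1 m) + R, decide (0 < y.1 m)) z

lemma rep_uu (y : DD) (R : ℤ) : Rep B0 1 (uu y R) := by
  classical
  set p : Option ℕ → ℝ := fun x => x.elim (1 - ∑ m ∈ y.1.support, wgt y m) (wgt y) with hp
  set γ : Option ℕ → DD → ℝ := fun x => x.elim 0 (fun m => gen (m, lev (y.1 m) + R, decide (0 < y.1 m))) with hγ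
  have hp0 : ∀ i, 0 ≤ p i := by
    rintro (_ | m)
    · simp only [hp, Option.elim_none]; linarith [sum_wgt_le y]
    · simp only [hp, Option.elim_some]; exact wgt_nonneg y m
  have hγ0 : ∀ i, γ i ∈ B0 := by
    rintro (_ | m)
    · simp only [hγ, Option.elim_none]; exact mem_insert _ _
    · simp only [hγ, Option.elim_some]; exact mem_insert_of_mem _ ⟨_, rfl⟩
  have hp1 : ∑ i ∈ Finset.insertNone y.1.support, p i = 1 := by
    rw [Finset.sum_insertNone]
    simp [hp]
  have hsum : ∀ z, ∑ i ∈ Finset.insertNone y.1.support, p i * γ i z = uu y R z := by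
    intro z
    rw [Finset.sum_insertNone]
    simp [hp, hγ, uu]
  refine ⟨Option ℕ, Finset.insertNone y.1.support, p, γ, fun i _ => hp0 i, hp1, fun i _ => hγ0 i, hsum, ?_⟩
  intro z
  have e : ∀ i ∈ Finset.insertNone y.1.support, p i * (γ i z - uu y R z)^2 = 
      p i * (γ i z)^2 - 2 * uu y R z * (p i * γ i z) + p i * (uu y R z)^2 := by
    intro i _; ring
  rw [Finset.sum_congr rfl e, Finset.sum_add_distrib, Finset.sum_sub_distrib, ← Finset.mul_sum, hsum, 
    ← Finset.sum_mul, hp1]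
  have h1 : ∑ i ∈ Finset.insertNone y.1.support, p i * (γ i z)^2 ≤ ∑ i ∈ Finset.insertNone y.1.support, p i := by
    refine Finset.sum_le_sum fun i _ => ?_
    have h2 : (γ i z)^2 ≤ 1 := by
      rw [← sq_abs]
      exact pow_le_one₀ (abs_nonneg _) (good_B0.bdd _ (hγ0 i) z)
    nlinarith [hp0 i]
  rw [hp1] at h1
  nlinarith [sq_nonneg (uu y R z)]

/-- one term of the component -/
lemma term_eq (y : DD) (R : ℤ) (z : DD) {m : ℕ} (hm : y.1 m ≠ 0) : 
    (2:ℝ)^(R+1) * (wgt y m * gen (m, lev (y.1 m) + R, decide (0 < y.1 m)) z) = 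
      if z.1 m ≠ 0 ∧ lev (z.1 m) = lev (y.1 m) + R then y.1 m * z.1 m else 0 := by
  unfold gen beta wgt
  have h2 : (2:ℝ) ≠ 0 := two_ne_zero
  by_cases h : z.1 m ≠ 0 ∧ lev (z.1 m) = lev (y.1 m) + R
  · simp only [if_pos h]
    rw [zpow_add₀ h2, zpow_add₀ h2, zpow_one]
    have h3 : (0:ℝ) < 2^lev (y.1 m) := by positivity
    have h4 : (0:ℝ) < 2^R := by positivity
    rcases lt_or_gt_of_ne hm with h5 | h5
    · have : decide (0 < y.1 m) = false := by simp [h5.le]
      rw [this, abs_of_neg h5]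
      simp
      field_simp
    · have : decide (0 < y.1 m) = true := by simp [h5]
      rw [this, abs_of_pos h5]
      simp
      field_simp
  · simp only [if_neg h]
    simp

lemma abs_uu_le (y : DD) (r : ℕ) (z : DD) : |uu y r z| ≤ (1/4 : ℝ)^r := by
  have h1 : |(2:ℝ)^((r:ℤ)+1) * uu y r z| ≤ 2 * (1/2 : ℝ)^r := by
    unfold uu
    rw [Finset.mul_sum]
    refine (Finset.abs_sum_le_sum_abs _ _).trans ?_
    calc ∑ m ∈ y.1.support, |(2:ℝ)^((r:ℤ)+1) * (wgt y m * gen (m, lev (y.1 m) + r, decide (0 < y.1 m)) z)| 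
        ≤ ∑ m ∈ y.1.support, 2 * (1/2 : ℝ)^r * (z.1 m)^2 := by
          refine Finset.sum_le_sum fun m hm => ?_
          have hm' := Finsupp.mem_support_iff.1 hm
          rw [term_eq y r z hm']
          split_ifs with h
          · have h2 := lt_lev (y.1 m)
            have h3 := lev_le h.1
            rw [h.2, zpow_add₀ two_ne_zero, zpow_natCast] at h3
            rw [zpow_add₀ two_ne_zero, zpow_one] at h2
            rw [abs_mul, ← sq_abs (z.1 m)]
            have h4 : (1/2 : ℝ)^r * 2^r = 1 := by rw [← mul_pow]; norm_num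
            have h5 : (0:ℝ) < (1/2 : ℝ)^r := by positivity
            have h6 : |y.1 m| ≤ 2 * (1/2 : ℝ)^r * |z.1 m| := by
              calc |y.1 m| ≤ 2^lev (y.1 m) * 2 := h2.le
                _ = 2 * (1/2 : ℝ)^r * (2^lev (y.1 m) * 2^r) := by
                    linear_combination (-2 * (2:ℝ)^lev (y.1 m)) * h4
                _ ≤ 2 * (1/2 : ℝ)^r * |z.1 m| := by gcongr
            calc |y.1 m| * |z.1 m| ≤ (2 * (1/2 : ℝ)^r * |z.1 m|) * |z.1 m| := by gcongr
              _ = _ := by ring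
          · simp; positivity
      _ = 2 * (1/2 : ℝ)^r * ∑ m ∈ y.1.support, (z.1 m)^2 := by rw [Finset.mul_sum]
      _ ≤ 2 * (1/2 : ℝ)^r * 1 := by
          have := (sum_sq_le_nsq z.1 y.1.support).trans z.2
          gcongr
      _ = _ := by ring
  rw [abs_mul, abs_of_pos (by positivity : (0:ℝ) < 2^((r:ℤ)+1)), zpow_add₀ two_ne_zero, zpow_one, zpow_natCast] at h1
  have h4 : (1/2 : ℝ)^r * 2^r = 1 := by rw [← mul_pow]; norm_num
  have h5 : (1/4 : ℝ)^r = (1/2 : ℝ)^r * (1/2)^r := by rw [← mul_pow]; norm_num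
  rw [h5]
  have h6 : (0:ℝ) < (1/2 : ℝ)^r := by positivity
  calc |uu y r z| = (1/2)^r * (2^r * |uu y r z|) := by rw [← mul_assoc, h4, one_mul]
    _ ≤ (1/2)^r * (1/2)^r := by
        gcongr
        nlinarith

end Pool.Agent.Hhelper28.Rosenthal
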