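import Mathlib

/-!
Averaging and clipping: exact representation of a uniformly small average of functions from a
countable compact set by averages of uniformly small functions from countable compact sets.
-/

open Filter Topology Set

namespace Pool.Agent.Hhelper28.Rosenthal

variable {D : Type}

/-- countable compact sets (pointwise topology) of functions with values in `[-1, 1]` -/
structure Good (S : Set (D → ℝ)) : Prop where
  compact : IsCompact S
  countable : S.Countable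
  bdd : ∀ f ∈ S, ∀ z, |f z| ≤ 1

/-- truncation at level `c` -/
noncomputable def clip (c t : ℝ) : ℝ := max (-c) (min c t)

lemma continuous_clip (c : ℝ) : Continuous (clip c) := by
  unfold clip; fun_prop

lemma abs_clip_le {c : ℝ} (hc : 0 ≤ c) (t : ℝ) : |clip c t| ≤ c := by
  unfold clip
  rw [abs_le]
  refine ⟨le_max_left _ _, max_le (by linarith) (min_le_left _ _)⟩

lemma abs_sub_clip_le {c : ℝ} (hc : 0 ≤ c) (t : ℝ) : |t - clip c t| ≤ |t| := by
  unfold clip
  rcases le_total t (-c) with h | h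
  · rw [min_eq_right (by linarith), max_eq_left h, abs_of_nonpos (by linarith), abs_of_nonpos (by linarith)]
    linarith
  · rcases le_total t c with h' | h'
    · rw [min_eq_right h', max_eq_right h]; simp
    · rw [min_eq_left h', max_eq_right (by linarith), abs_of_nonneg (by linarith), abs_of_nonneg (by linarith)]
      linarith

lemma sub_clip_le {δ u g : ℝ} (hδ : 0 < δ) (hu : |u| ≤ δ) : |g - clip (2 * δ) g| ≤ (g - u)^2 / (4 * δ) := by
  rw [le_div_iff₀ (by positivity)]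
  obtain ⟨h1, h2⟩ := abs_le.1 hu
  unfold clip
  rcases le_total g (-(2 * δ)) with h | h
  · rw [min_eq_right (by linarith), max_eq_left h, abs_of_nonpos (by linarith)]
    nlinarith [sq_nonneg (g - u + 2 * δ)]
  · rcases le_total g (2 * δ) with h' | h'
    · rw [min_eq_right h', max_eq_right h]
      simp
      positivity
    · rw [min_eq_left h', max_eq_right (by linarith), abs_of_nonneg (by linarith)]
      nlinarith [sq_nonneg (g - u - 2 * δ)]

/-- averages of pairs -/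
def half (S : Set (D → ℝ)) : Set (D → ℝ) := image2 (fun f g => fun z => (f z + g z) / 2) S S

/-- truncated and normalised functions -/
noncomputable def stepA (δ : ℝ) (S : Set (D → ℝ)) : Set (D → ℝ) := (fun f z => clip (2 * δ) (f z) / (2 * δ)) '' S

/-- the excess of the truncation -/
noncomputable def stepB (δ : ℝ) (S : Set (D → ℝ)) : Set (D → ℝ) := (fun f z => f z - clip (2 * δ) (f z)) '' S

lemma Good.half {S : Set (D → ℝ)} (h : Good S) : Good (half S) := by
  refine ⟨?_, h.countable.image2 h.countable _, ?_⟩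
  · unfold Rosenthal.half
    rw [← image_uncurry_prod]
    refine (h.compact.prod h.compact).image ?_
    unfold Function.uncurry
    refine continuous_pi fun z => ?_
    fun_prop
  · rintro _ ⟨f, hf, g, hg, rfl⟩ z
    have h1 := h.bdd f hf z
    have h2 := h.bdd g hg z
    rw [abs_le] at *
    constructor <;> linarith [h1.1, h1.2, h2.1, h2.2]

lemma Good.iter {S : Set (D → ℝ)} (h : Good S) (n : ℕ) : Good (Rosenthal.half^[n] S) := by
  induction n with
  | zero => exact h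
  | succ n ih => rw [Function.iterate_succ_apply']; exact ih.half

lemma Good.stepA {S : Set (D → ℝ)} (h : Good S) {δ : ℝ} (hδ : 0 < δ) : Good (stepA δ S) := by
  refine ⟨?_, h.countable.image _, ?_⟩
  · refine h.compact.image ?_
    refine continuous_pi fun z => ?_
    exact ((continuous_clip _).comp (continuous_apply z)).div_const _
  · rintro _ ⟨f, hf, rfl⟩ z
    beta_reduce
    rw [abs_div, abs_of_pos (by positivity : (0:ℝ) < 2 * δ), div_le_one (by positivity)]
    exact abs_clip_le (by positivity) _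

lemma Good.stepB {S : Set (D → ℝ)} (h : Good S) {δ : ℝ} (hδ : 0 < δ) : Good (stepB δ S) := by
  refine ⟨?_, h.countable.image _, ?_⟩
  · refine h.compact.image ?_
    refine continuous_pi fun z => ?_
    exact (continuous_apply z).sub ((continuous_clip _).comp (continuous_apply z))
  · rintro _ ⟨f, hf, rfl⟩ z
    beta_reduce
    exact (abs_sub_clip_le (by positivity) _).trans (h.bdd f hf z)

/-- `u` is a finite average of functions in `S`, with pointwise variance at most `σ` -/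
def Rep (S : Set (D → ℝ)) (σ : ℝ) (u : D → ℝ) : Prop :=
  ∃ (ι : Type) (s : Finset ι) (p : ι → ℝ) (γ : ι → D → ℝ), (∀ i ∈ s, 0 ≤ p i) ∧ ∑ i ∈ s, p i = 1 ∧
    (∀ i ∈ s, γ i ∈ S) ∧ (∀ z, ∑ i ∈ s, p i * γ i z = u z) ∧ ∀ z, ∑ i ∈ s, p i * (γ i z - u z)^2 ≤ σ

lemma Rep.half {S : Set (D → ℝ)} {σ : ℝ} {u : D → ℝ} (h : Rep S σ u) : Rep (half S) (σ / 2) u := by
  obtain ⟨ι, s, p, γ, hp, hp1, hγ, hu, hv⟩ := h
  refine ⟨ι × ι, s ×ˢ s, fun x => p x.1 * p x.2, fun x z => (γ x.1 z + γ x.2 z) / 2, ?_, ?_, ?_, ?_, ?_⟩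
  · rintro ⟨i, j⟩ hij
    rw [Finset.mem_product] at hij
    exact mul_nonneg (hp i hij.1) (hp j hij.2)
  · rw [Finset.sum_product]
    simp only [← Finset.mul_sum, hp1, mul_one]
  · rintro ⟨i, j⟩ hij
    rw [Finset.mem_product] at hij
    exact ⟨γ i, hγ i hij.1, γ j, hγ j hij.2, rfl⟩
  · intro z
    rw [Finset.sum_product]
    have e : ∀ i ∈ s, ∑ j ∈ s, p i * p j * ((γ i z + γ j z) / 2) = (1/2) * (p i * γ i z) + (1/2) * p i * u z := by
      intro i _
      have : ∀ j ∈ s, p i * p j * ((γ i z + γ j z) / 2) = (1/2 * (p i * γ i z)) * p j + (1/2 * p i) * (p j * γ j z) := by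
        intro j _; ring
      rw [Finset.sum_congr rfl this, Finset.sum_add_distrib, ← Finset.mul_sum, ← Finset.mul_sum, hp1, hu]
      ring
    rw [Finset.sum_congr rfl e, Finset.sum_add_distrib, ← Finset.mul_sum, hu, ← Finset.sum_mul, ← Finset.mul_sum, hp1]
    ring
  · intro z
    rw [Finset.sum_product]
    have hz : ∑ j ∈ s, p j * (γ j z - u z) = 0 := by
      simp only [mul_sub, Finset.sum_sub_distrib, hu, ← Finset.sum_mul, hp1]
      ring
    have e : ∀ i ∈ s, ∑ j ∈ s, p i * p j * ((γ i z + γ j z) / 2 - u z)^2 = 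
        (1/4) * (p i * (γ i z - u z)^2) + (1/4) * p i * (∑ j ∈ s, p j * (γ j z - u z)^2) := by
      intro i _
      have : ∀ j ∈ s, p i * p j * ((γ i z + γ j z) / 2 - u z)^2 = 
          (1/4 * (p i * (γ i z - u z)^2)) * p j + (1/2 * p i * (γ i z - u z)) * (p j * (γ j z - u z)) + 
            (1/4 * p i) * (p j * (γ j z - u z)^2) := by
        intro j _; ring
      rw [Finset.sum_congr rfl this, Finset.sum_add_distrib, Finset.sum_add_distrib, ← Finset.mul_sum, ← Finset.mul_sum, 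
        ← Finset.mul_sum, hp1, hz]
      ring
    rw [Finset.sum_congr rfl e, Finset.sum_add_distrib, ← Finset.mul_sum, ← Finset.sum_mul, ← Finset.mul_sum, hp1]
    linarith [hv z]

lemma Rep.iter {S : Set (D → ℝ)} {σ : ℝ} {u : D → ℝ} (h : Rep S σ u) (n : ℕ) : 
    Rep (Rosenthal.half^[n] S) (σ * (1/2)^n) u := by
  induction n with
  | zero => simpa using h
  | succ n ih => 
    rw [Function.iterate_succ_apply']
    have := ih.half
    rw [pow_succ, ← mul_assoc, mul_one_div]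
    exact this

/-- evaluation of a finite signed measure on a function -/
noncomputable def ev (μ : D →₀ ℝ) (f : D → ℝ) : ℝ := ∑ z ∈ μ.support, μ z * f z

lemma ev_add (μ : D →₀ ℝ) (f g : D → ℝ) : ev μ (fun z => f z + g z) = ev μ f + ev μ g := by
  unfold ev
  rw [← Finset.sum_add_distrib]
  exact Finset.sum_congr rfl fun z _ => by ring

lemma ev_mul (μ : D →₀ ℝ) (c : ℝ) (f : D → ℝ) : ev μ (fun z => c * f z) = c * ev μ f := by
  unfold ev
  rw [Finset.mul_sum]
  exact Finset.sum_congr rfl fun z _ => by ring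

lemma ev_sum {ι : Type*} (μ : D →₀ ℝ) (s : Finset ι) (f : ι → D → ℝ) : 
    ev μ (fun z => ∑ i ∈ s, f i z) = ∑ i ∈ s, ev μ (f i) := by
  unfold ev
  simp only [Finset.mul_sum]
  rw [Finset.sum_comm]

lemma abs_ev_le (μ : D →₀ ℝ) (f : D → ℝ) {δ : ℝ} (h : ∀ z, |f z| ≤ δ) : 
    |ev μ f| ≤ (∑ z ∈ μ.support, |μ z|) * δ := by
  unfold ev
  refine (Finset.abs_sum_le_sum_abs _ _).trans ?_
  rw [Finset.sum_mul]
  refine Finset.sum_le_sum fun z _ => ?_
  rw [abs_mul]
  exact mul_le_mul_of_nonneg_left (h z) (abs_nonneg _)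

/-- averages are bounded by suprema -/
lemma abs_ev_avg_le {ι : Type*} (μ : D →₀ ℝ) {s : Finset ι} {p : ι → ℝ} {γ : ι → D → ℝ} {t : ℝ}
    (hp : ∀ i ∈ s, 0 ≤ p i) (hp1 : ∑ i ∈ s, p i = 1) (h : ∀ i ∈ s, |ev μ (γ i)| ≤ t) : 
    |ev μ (fun z => ∑ i ∈ s, p i * γ i z)| ≤ t := by
  rw [ev_sum]
  simp only [ev_mul]
  refine (Finset.abs_sum_le_sum_abs _ _).trans ?_
  calc ∑ i ∈ s, |p i * ev μ (γ i)| ≤ ∑ i ∈ s, p i * t := by
        refine Finset.sum_le_sum fun i hi => ?_
        rw [abs_mul, abs_of_nonneg (hp i hi)]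
        exact mul_le_mul_of_nonneg_left (h i hi) (hp i hi)
    _ = t := by rw [← Finset.sum_mul, hp1, one_mul]

/-- one step of the representation -/
lemma Rep.step {S : Set (D → ℝ)} (hS : ∀ f ∈ S, ∀ z, |f z| ≤ 1) {δ δ' : ℝ} (hδ : 0 < δ) {n : ℕ} 
    {u : D → ℝ} (h : Rep S 1 u) (hu : ∀ z, |u z| ≤ δ) (hn : (1/2 : ℝ)^n ≤ 4 * δ * δ') 
    (hG : Good S) : 
    ∃ u' : D → ℝ, Rep (Rosenthal.stepB δ (Rosenthal.half^[n] S)) 1 u' ∧ (∀ z, |u' z| ≤ δ') ∧ 
      ∀ (μ : D →₀ ℝ) (t : ℝ), (∀ f ∈ Rosenthal.stepA δ (Rosenthal.half^[n] S), |ev μ f| ≤ t) → 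
        |ev μ u| ≤ 2 * δ * t + |ev μ u'| := by
  obtain ⟨ι, s, p, γ, hp, hp1, hγ, hu', hv⟩ := h.iter n
  have hSn := hG.iter n
  refine ⟨fun z => ∑ i ∈ s, p i * (γ i z - clip (2 * δ) (γ i z)), 
    ⟨ι, s, p, fun i z => γ i z - clip (2 * δ) (γ i z), hp, hp1, ?_, fun z => rfl, ?_⟩, ?_, ?_⟩
  · intro i hi
    exact ⟨γ i, hγ i hi, rfl⟩
  · intro z
    set m := ∑ i ∈ s, p i * (γ i z - clip (2 * δ) (γ i z)) with hm
    have e : ∀ i ∈ s, p i * (γ i z - clip (2 * δ) (γ i z) - m)^2 = 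
        p i * (γ i z - clip (2 * δ) (γ i z))^2 - 2 * m * (p i * (γ i z - clip (2 * δ) (γ i z))) + p i * m^2 := by
      intro i _; ring
    rw [Finset.sum_congr rfl e, Finset.sum_add_distrib, Finset.sum_sub_distrib, ← Finset.mul_sum, ← hm, 
      ← Finset.sum_mul, hp1]
    have h1 : ∑ i ∈ s, p i * (γ i z - clip (2 * δ) (γ i z))^2 ≤ ∑ i ∈ s, p i := by
      refine Finset.sum_le_sum fun i hi => ?_
      have h2 : |γ i z - clip (2 * δ) (γ i z)| ≤ 1 := 
        (abs_sub_clip_le (by positivity) _).trans (hSn.bdd _ (hγ i hi) z)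
      have h3 : (γ i z - clip (2 * δ) (γ i z))^2 ≤ 1 := by
        rw [← sq_abs]
        exact pow_le_one₀ (abs_nonneg _) h2
      nlinarith [hp i hi]
    rw [hp1] at h1
    nlinarith [sq_nonneg m]
  · intro z
    refine (Finset.abs_sum_le_sum_abs _ _).trans ?_
    have h1 : ∑ i ∈ s, |p i * (γ i z - clip (2 * δ) (γ i z))| ≤ ∑ i ∈ s, (p i * (γ i z - u z)^2) / (4 * δ) := by
      refine Finset.sum_le_sum fun i hi => ?_
      rw [abs_mul, abs_of_nonneg (hp i hi), mul_div_assoc]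
      exact mul_le_mul_of_nonneg_left (sub_clip_le hδ (hu z)) (hp i hi)
    refine h1.trans ?_
    rw [← Finset.sum_div, div_le_iff₀ (by positivity)]
    refine (hv z).trans ?_
    rw [one_mul]
    linarith
  · intro μ t ht
    have e : u = fun z => (2 * δ) * (∑ i ∈ s, p i * (clip (2 * δ) (γ i z) / (2 * δ))) + 
        ∑ i ∈ s, p i * (γ i z - clip (2 * δ) (γ i z)) := by
      funext z
      rw [← hu' z, Finset.mul_sum, ← Finset.sum_add_distrib]
      refine Finset.sum_congr rfl fun i _ => ?_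
      field_simp
      ring
    rw [e, ev_add, ev_mul]
    refine (abs_add_le _ _).trans ?_
    rw [abs_mul, abs_of_pos (by positivity : (0:ℝ) < 2 * δ)]
    have h1 : |ev μ (fun z => ∑ i ∈ s, p i * (clip (2 * δ) (γ i z) / (2 * δ)))| ≤ t := by
      refine abs_ev_avg_le μ (γ := fun i z => clip (2 * δ) (γ i z) / (2 * δ)) hp hp1 fun i hi => ?_
      exact ht _ ⟨γ i, hγ i hi, rfl⟩
    gcongr

/-- the sets produced by the iteration -/
noncomputable def SS (δ : ℕ → ℝ) (n : ℕ → ℕ) (S : Set (D → ℝ)) : ℕ → Set (D → ℝ)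
  | 0 => S
  | k + 1 => stepB (δ k) (half^[n k] (SS δ n S k))

noncomputable def AA (δ : ℕ → ℝ) (n : ℕ → ℕ) (S : Set (D → ℝ)) (k : ℕ) : Set (D → ℝ) := 
  stepA (δ k) (half^[n k] (SS δ n S k))

lemma good_SS {δ : ℕ → ℝ} {n : ℕ → ℕ} {S : Set (D → ℝ)} (hδ : ∀ k, 0 < δ k) (hS : Good S) (k : ℕ) : 
    Good (SS δ n S k) := by
  induction k with
  | zero => exact hS
  | succ k ih => exact (ih.iter (n k)).stepB (hδ k)

lemma good_AA {δ : ℕ → ℝ} {n : ℕ → ℕ} {S : Set (D → ℝ)} (hδ : ∀ k, 0 < δ k) (hS : Good S) (k : ℕ) : 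
    Good (AA δ n S k) := ((good_SS hδ hS k).iter (n k)).stepA (hδ k)

lemma rep_series {δ : ℕ → ℝ} {n : ℕ → ℕ} {S : Set (D → ℝ)} (hδ : ∀ k, 0 < δ k) (hS : Good S)
    (hn : ∀ k, (1/2 : ℝ)^(n k) ≤ 4 * δ k * δ (k+1)) {u : D → ℝ} (h : Rep S 1 u) (hu : ∀ z, |u z| ≤ δ 0) 
    (μ : D →₀ ℝ) (t : ℕ → ℝ) (ht : ∀ k, ∀ f ∈ AA δ n S k, |ev μ f| ≤ t k) (K : ℕ) : 
    |ev μ u| ≤ ∑ j ∈ Finset.range K, 2 * δ j * t j + (∑ z ∈ μ.support, |μ z|) * δ K := by
  have key : ∃ u' : D → ℝ, Rep (SS δ n S K) 1 u' ∧ (∀ z, |u' z| ≤ δ K) ∧ 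
      |ev μ u| ≤ ∑ j ∈ Finset.range K, 2 * δ j * t j + |ev μ u'| := by
    induction K with
    | zero => exact ⟨u, h, hu, by simp⟩
    | succ K ih =>
      obtain ⟨u', h1, h2, h3⟩ := ih
      obtain ⟨u'', h4, h5, h6⟩ := h1.step (good_SS hδ hS K).bdd (hδ K) h2 (hn K) (good_SS hδ hS K)
      refine ⟨u'', h4, h5, ?_⟩
      rw [Finset.sum_range_succ]
      have := h6 μ (t K) (ht K)
      linarith
  obtain ⟨u', _, h2, h3⟩ := key
  have := abs_ev_le μ u' h2
  linarith

end Pool.Agent.Hhelper28.Rosenthal
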