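import Pool.Agent.Hhelper28.Rosenthal.Bound

/-!
A quotient of `C(K)`, `K` countable compact, containing a copy of `ℓ²`.

Idea. Let `D` be the set of finitely supported vectors of the unit ball of `ℓ²`. Suppose `K` is a
countable compact set of functions `D → [-1,1]` such that `|μ(φ_y)| ≤ C sup_{f ∈ K} |μ(f)|` for every
finitely supported signed measure `μ` on `D` and every `y ∈ D`, where `φ_y(z) = ⟨y, z⟩`. Then the map
`μ ↦ Σ μ(z) z` from the span of the evaluations in `C(K)` onto (a dense part of) `ℓ²` is bounded, so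
`C(K)/Z` contains `ℓ²`, where `Z` is the closure of the kernel.
The function `φ_y` is split according to the dyadic size of `z_m / y_m`. The part of ratio `2^R` is
`2^{R+1}` times an average of functions of a null sequence `B0`, and is bounded by `2^{1-R}`.
A uniformly small average `u` (`|u| ≤ δ`) of functions of a countable compact set `S` is
an absolutely convergent series `Σ 2 δ_k v_k` of averages of functions of countable compact sets
(independent of `u`): average `2^n` independent copies, truncate at `2δ` and iterate (`Rep.lean`).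
-/

open Filter Topology Set
open scoped ZeroAtInfty

namespace Pool.Agent.Hhelper28.Rosenthal

instance : CompactSpace KK := isCompact_iff_compactSpace.1 good_KK.compact

instance : Countable KK := good_KK.countable.to_subtype

/-- evaluation functions -/
noncomputable def evk (z : DD) : C(KK, ℝ) := ⟨fun f => f.1 z, (continuous_apply z).comp continuous_subtype_val⟩

lemma norm_evk_le (z : DD) : ‖evk z‖ ≤ 1 := by
  rw [ContinuousMap.norm_le _ zero_le_one]
  intro f
  exact good_KK.bdd f.1 f.2 z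

noncomputable def jj : (DD →₀ ℝ) →ₗ[ℝ] C(KK, ℝ) := Finsupp.linearCombination ℝ evk

noncomputable def QQ : (DD →₀ ℝ) →ₗ[ℝ] (ℕ →₀ ℝ) := Finsupp.linearCombination ℝ (fun z : DD => z.1)

lemma jj_apply (μ : DD →₀ ℝ) (f : KK) : jj μ f = ev μ f.1 := by
  unfold jj ev
  rw [Finsupp.linearCombination_apply, Finsupp.sum, ContinuousMap.coe_sum, Finset.sum_apply]
  rfl

lemma QQ_apply (μ : DD →₀ ℝ) (m : ℕ) : QQ μ m = ∑ z ∈ μ.support, μ z * z.1 m := by
  unfold QQ
  rw [Finsupp.linearCombination_apply, Finsupp.sum, Finsupp.finsetSum_apply]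
  rfl

lemma ev_phi (μ : DD →₀ ℝ) (y : DD) : ev μ (phi y) = ∑ m ∈ y.1.support, y.1 m * QQ μ m := by
  unfold ev phi
  simp only [QQ_apply, Finset.mul_sum]
  rw [Finset.sum_comm]
  exact Finset.sum_congr rfl fun m _ => Finset.sum_congr rfl fun z _ => by ring

lemma nsq_eq_sum {h : ℕ →₀ ℝ} {s : Finset ℕ} (hs : h.support ⊆ s) : nsq h = ∑ m ∈ s, (h m)^2 := by
  unfold nsq
  refine Finset.sum_subset hs fun m _ hm => ?_
  rw [Finsupp.notMem_support_iff.1 hm]; simp

lemma nsq_smul (c : ℝ) (h : ℕ →₀ ℝ) : nsq (c • h) = c^2 * nsq h := by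
  rw [nsq_eq_sum (h := c • h) (s := h.support) Finsupp.support_smul, nsq, Finset.mul_sum]
  exact Finset.sum_congr rfl fun m _ => by simp [mul_pow]

lemma eq_zero_of_nsq {h : ℕ →₀ ℝ} (h0 : nsq h ≤ 0) : h = 0 := by
  ext m
  have h1 := sum_sq_le_nsq h {m}
  rw [Finset.sum_singleton] at h1
  have : (h m)^2 = 0 := le_antisymm (h1.trans h0) (sq_nonneg _)
  simpa using this

lemma nsq_parallelogram (a b : ℕ →₀ ℝ) : nsq (a + b) + nsq (a - b) = 2 * nsq a + 2 * nsq b := by
  classical
  have h1 : (a + b).support ⊆ a.support ∪ b.support := Finsupp.support_add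
  have h2 : (a - b).support ⊆ a.support ∪ b.support := Finsupp.support_sub
  rw [nsq_eq_sum h1, nsq_eq_sum h2, nsq_eq_sum (Finset.subset_union_left (s₁ := a.support) (s₂ := b.support)), 
    nsq_eq_sum (Finset.subset_union_right (s₁ := a.support) (s₂ := b.support)), Finset.mul_sum, Finset.mul_sum, 
    ← Finset.sum_add_distrib, ← Finset.sum_add_distrib]
  exact Finset.sum_congr rfl fun m _ => by simp; ring

lemma exists_signs (h : ℕ → ℕ →₀ ℝ) (n : ℕ) : ∃ ε : ℕ → ℝ, (∀ i, ε i = 1 ∨ ε i = -1) ∧ 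
    ∑ i ∈ Finset.range n, nsq (h i) ≤ nsq (∑ i ∈ Finset.range n, ε i • h i) := by
  induction n with
  | zero => exact ⟨fun _ => 1, fun _ => Or.inl rfl, by simp [nsq]⟩
  | succ n ih =>
    obtain ⟨ε, hε, hn⟩ := ih
    set a := ∑ i ∈ Finset.range n, ε i • h i with ha
    have hp := nsq_parallelogram a (h n)
    have key : ∃ t : ℝ, (t = 1 ∨ t = -1) ∧ nsq a + nsq (h n) ≤ nsq (a + t • h n) := by
      by_cases hc : nsq a + nsq (h n) ≤ nsq (a + h n)
      · exact ⟨1, Or.inl rfl, by simpa using hc⟩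
      · refine ⟨-1, Or.inr rfl, ?_⟩
        rw [neg_one_smul, ← sub_eq_add_neg]
        linarith
    obtain ⟨t, ht, hta⟩ := key
    refine ⟨Function.update ε n t, ?_, ?_⟩
    · intro i
      by_cases hi : i = n
      · subst hi; simpa using ht
      · rw [Function.update_of_ne hi]; exact hε i
    · rw [Finset.sum_range_succ, Finset.sum_range_succ]
      have e : ∑ i ∈ Finset.range n, Function.update ε n t i • h i = a := by
        rw [ha]
        refine Finset.sum_congr rfl fun i hi => ?_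
        rw [Function.update_of_ne (Finset.mem_range.1 hi).ne]
      rw [e, Function.update_self]
      linarith

/-- lower bound for the norm in `C(K)` -/
lemma nsq_le_norm (μ : DD →₀ ℝ) : nsq (QQ μ) ≤ (26 * ‖jj μ‖)^2 := by
  by_cases h0 : nsq (QQ μ) ≤ 0
  · exact h0.trans (sq_nonneg _)
  push Not at h0
  set N := Real.sqrt (nsq (QQ μ)) with hN
  have hN0 : 0 < N := Real.sqrt_pos.2 h0
  have hN2 : N^2 = nsq (QQ μ) := Real.sq_sqrt h0.le
  have hy : nsq (N⁻¹ • QQ μ) ≤ 1 := by
    rw [nsq_smul, ← hN2]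
    apply le_of_eq
    field_simp
  have h1 := phi_bound (μ := μ) (P := ‖jj μ‖) (by
    intro f hf
    have := ContinuousMap.norm_coe_le_norm (jj μ) (⟨f, hf⟩ : KK)
    rw [jj_apply] at this
    exact this) ⟨N⁻¹ • QQ μ, hy⟩
  rw [ev_phi] at h1
  have h2 : ∑ m ∈ (N⁻¹ • QQ μ).support, (N⁻¹ • QQ μ) m * QQ μ m = N := by
    have e : ∑ m ∈ (N⁻¹ • QQ μ).support, (N⁻¹ • QQ μ) m * QQ μ m = N⁻¹ * ∑ m ∈ (QQ μ).support, (QQ μ m)^2 := by
      rw [Finset.mul_sum]
      have hs : (N⁻¹ • QQ μ).support = (QQ μ).support := Finsupp.support_smul_eq (inv_ne_zero hN0.ne')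
      rw [hs]
      exact Finset.sum_congr rfl fun m _ => by simp; ring
    rw [e]
    change N⁻¹ * nsq (QQ μ) = N
    rw [← hN2]; field_simp
  rw [h2, abs_of_pos hN0] at h1
  rw [← hN2]
  exact pow_le_pow_left₀ hN0.le h1 2

/-- the kernel -/
noncomputable def ZZ : Submodule ℝ C(KK, ℝ) := (Submodule.map jj (LinearMap.ker QQ)).topologicalClosure

instance isClosed_ZZ : IsClosed (ZZ : Set C(KK, ℝ)) := Submodule.isClosed_topologicalClosure _

/-- the quotient space -/
def XX : Type := C(KK, ℝ) ⧸ ZZ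

noncomputable instance instNAG : NormedAddCommGroup XX := Submodule.Quotient.normedAddCommGroup ZZ

noncomputable instance instNS : NormedSpace ℝ XX := Submodule.Quotient.normedSpace ZZ ℝ

instance instCS : CompleteSpace XX := Submodule.Quotient.completeSpace ZZ

/-- the quotient map as a linear map -/
noncomputable def pr : C(KK, ℝ) →ₗ[ℝ] XX := ZZ.mkQ

lemma norm_pr_le (f : C(KK, ℝ)) : ‖pr f‖ ≤ ‖f‖ := Submodule.Quotient.norm_mk_le ZZ f

lemma exists_pr (x : XX) {s : ℝ} (hs : 0 < s) : ∃ f, pr f = x ∧ ‖f‖ < ‖x‖ + s :=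
  Submodule.Quotient.norm_mk_lt (S := ZZ) x hs

lemma pr_eq_zero (f : C(KK, ℝ)) : pr f = 0 ↔ f ∈ ZZ := Submodule.Quotient.mk_eq_zero ZZ

lemma pr_surjective : Function.Surjective pr := Submodule.mkQ_surjective ZZ

/-- the quotient map as a continuous linear map -/
noncomputable def TT : C(KK, ℝ) →L[ℝ] XX := pr.mkContinuous 1 (fun f => by rw [one_mul]; exact norm_pr_le f)

lemma TT_surjective : Function.Surjective TT := pr_surjective

/-- class of a combination -/
noncomputable def cl : (DD →₀ ℝ) →ₗ[ℝ] XX := pr ∘ₗ jj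

lemma cl_eq_zero {μ : DD →₀ ℝ} (h : QQ μ = 0) : cl μ = 0 := by
  unfold cl
  rw [LinearMap.comp_apply, pr_eq_zero]
  exact Submodule.le_topologicalClosure _ ⟨μ, h, rfl⟩

lemma norm_cl_le (μ : DD →₀ ℝ) : ‖cl μ‖ ≤ Real.sqrt (nsq (QQ μ)) := by
  by_cases h0 : nsq (QQ μ) ≤ 0
  · rw [cl_eq_zero (eq_zero_of_nsq h0), norm_zero]; exact Real.sqrt_nonneg _
  push Not at h0
  set N := Real.sqrt (nsq (QQ μ)) with hN
  have hN0 : 0 < N := Real.sqrt_pos.2 h0
  have hN2 : N^2 = nsq (QQ μ) := Real.sq_sqrt h0.le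
  have hy : nsq (N⁻¹ • QQ μ) ≤ 1 := by
    rw [nsq_smul, ← hN2]
    apply le_of_eq
    field_simp
  set z : DD := ⟨N⁻¹ • QQ μ, hy⟩ with hz
  set ν : DD →₀ ℝ := Finsupp.single z N with hν
  have hQν : QQ ν = QQ μ := by
    unfold QQ
    rw [hν, Finsupp.linearCombination_single, hz]
    simp only
    rw [smul_smul, mul_inv_cancel₀ hN0.ne', one_smul]
    rfl
  have h1 : cl μ = cl ν := by
    rw [← sub_eq_zero, ← map_sub]
    apply cl_eq_zero
    rw [map_sub, hQν, sub_self]
  rw [h1]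
  have h2 : ‖cl ν‖ ≤ ‖jj ν‖ := norm_pr_le (jj ν)
  refine h2.trans ?_
  unfold jj
  rw [hν, Finsupp.linearCombination_single, norm_smul, Real.norm_eq_abs, abs_of_pos hN0]
  have := norm_evk_le z
  nlinarith

lemma le_norm_cl (μ : DD →₀ ℝ) : Real.sqrt (nsq (QQ μ)) ≤ 26 * ‖cl μ‖ := by
  refine le_of_forall_pos_le_add fun s hs => ?_
  obtain ⟨f, hf, hf'⟩ := exists_pr (cl μ) (show (0:ℝ) < s / 52 by positivity)
  have h1 : f - jj μ ∈ ZZ := by
    rw [← pr_eq_zero, map_sub, hf]
    exact sub_self _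
  have h2 : f - jj μ ∈ closure ((Submodule.map jj (LinearMap.ker QQ) : Submodule ℝ C(KK, ℝ)) : Set C(KK, ℝ)) := h1
  rw [Metric.mem_closure_iff] at h2
  obtain ⟨w, ⟨ν, hν, rfl⟩, hw⟩ := h2 (s / 52) (by positivity)
  rw [dist_eq_norm] at hw
  have hν' : QQ ν = 0 := hν
  have h3 := nsq_le_norm (μ + ν)
  rw [map_add, hν', add_zero] at h3
  have h4 : ‖jj (μ + ν)‖ ≤ ‖f‖ + s / 52 := by
    have e : jj (μ + ν) = f - (f - jj μ - jj ν) := by rw [map_add]; abel
    rw [e]
    exact (norm_sub_le _ _).trans (by linarith)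
  have h5 : Real.sqrt (nsq (QQ μ)) ≤ 26 * ‖jj (μ + ν)‖ := by
    rw [← Real.sqrt_sq (show 0 ≤ 26 * ‖jj (μ + ν)‖ by positivity)]
    exact Real.sqrt_le_sqrt h3
  linarith

/-- the closed subspace isomorphic to `ℓ²` -/
noncomputable def YY : Submodule ℝ XX := (LinearMap.range cl).topologicalClosure

lemma exists_unit (m : ℕ) : ∃ z : DD, z.1 = Finsupp.single m 1 := by
  refine ⟨⟨Finsupp.single m 1, ?_⟩, rfl⟩
  rw [nsq_eq_sum (s := {m}) Finsupp.support_single_subset]
  simp

lemma YY_infinite : ¬ FiniteDimensional ℝ YY := by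
  intro hfin
  choose z hz using exists_unit
  let Φ : (ℕ →₀ ℝ) →ₗ[ℝ] YY := Finsupp.linearCombination ℝ (fun m : ℕ => 
    (⟨cl (Finsupp.single (z m) 1), Submodule.le_topologicalClosure _ ⟨_, rfl⟩⟩ : YY))
  have hinj : Function.Injective Φ := by
    rw [← LinearMap.ker_eq_bot, LinearMap.ker_eq_bot']
    intro h hh
    set μ : DD →₀ ℝ := ∑ m ∈ h.support, Finsupp.single (z m) (h m) with hμ
    have h1 : (Φ h : XX) = cl μ := by
      rw [hμ, map_sum, Finsupp.linearCombination_apply, Finsupp.sum]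
      rw [Submodule.coe_sum]
      refine Finset.sum_congr rfl fun m _ => ?_
      rw [Submodule.coe_smul, ← map_smul, Finsupp.smul_single, smul_eq_mul, mul_one]
    have h2 : QQ μ = h := by
      rw [hμ, map_sum]
      unfold QQ
      simp only [Finsupp.linearCombination_single, hz, Finsupp.smul_single, smul_eq_mul, mul_one]
      exact Finsupp.sum_single h
    have h3 := le_norm_cl μ
    rw [← h1, hh, h2] at h3
    simp only [ZeroMemClass.coe_zero, norm_zero, mul_zero] at h3
    have h4 : nsq h ≤ 0 := by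
      by_contra hc
      push Not at hc
      have := Real.sqrt_pos.2 hc
      linarith
    exact eq_zero_of_nsq h4
  have := Module.Finite.of_injective Φ hinj
  rw [Module.finite_finsupp_self_iff] at this
  rcases this with h | h
  · exact not_subsingleton ℝ h
  · exact not_finite ℕ

/-- unit vectors of `c₀` -/
noncomputable def c0unit (i : ℕ) : C₀(ℕ, ℝ) := 
  ⟨⟨fun n => if n = i then 1 else 0, continuous_of_discreteTopology⟩, by
    rw [cocompact_eq_cofinite]
    refine tendsto_const_nhds.congr' ?_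
    rw [EventuallyEq, eventually_cofinite]
    refine (finite_singleton i).subset ?_
    intro n hn
    by_contra hc
    apply hn
    have : n ≠ i := hc
    simp [this]⟩

lemma c0unit_apply (i n : ℕ) : c0unit i n = if n = i then 1 else 0 := rfl

lemma norm_sum_c0 {ε : ℕ → ℝ} (hε : ∀ i, ε i = 1 ∨ ε i = -1) (n : ℕ) : 
    ‖∑ i ∈ Finset.range n, ε i • c0unit i‖ ≤ 1 := by
  have h1 : ∀ (s : Finset ℕ) (k : ℕ), (∑ i ∈ s, ε i • c0unit i) k = ∑ i ∈ s, ε i * c0unit i k := by
    intro s k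
    classical
    induction s using Finset.induction_on with
    | empty => simp
    | insert a s ha ih => rw [Finset.sum_insert ha, Finset.sum_insert ha, ← ih]; rfl
  rw [← ZeroAtInftyContinuousMap.norm_toBCF_eq_norm, BoundedContinuousFunction.norm_le zero_le_one]
  intro k
  change ‖(∑ i ∈ Finset.range n, ε i • c0unit i) k‖ ≤ 1
  rw [h1]
  simp only [c0unit_apply, mul_ite, mul_one, mul_zero]
  rw [Finset.sum_ite_eq]
  split_ifs
  · rcases hε k with h | h <;> rw [h] <;> simp
  · simp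

lemma norm_c0unit (i : ℕ) : 1 ≤ ‖c0unit i‖ := by
  have h1 : ‖c0unit i i‖ ≤ ‖c0unit i‖ := by
    rw [← ZeroAtInftyContinuousMap.norm_toBCF_eq_norm]
    exact (c0unit i).toBCF.norm_coe_le_norm i
  rw [c0unit_apply] at h1
  simpa using h1

theorem no_c0 (S : C₀(ℕ, ℝ) →L[ℝ] XX) (hS : ∀ f, S f ∈ YY) {c : ℝ} (hc : 0 < c) (hc' : ∀ f, c * ‖f‖ ≤ ‖S f‖) : False := by
  obtain ⟨n, hn⟩ := exists_nat_gt ((26 * (‖S‖ + 1))^2 * 4 / c^2)
  have hn0 : 0 < n := by
    rcases Nat.eq_zero_or_pos n with h | h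
    · rw [h] at hn
      have : 0 ≤ (26 * (‖S‖ + 1))^2 * 4 / c^2 := by positivity
      simp at hn
      linarith
    · exact h
  set η : ℝ := min (c / 2) (1 / n) with hη
  have hη0 : 0 < η := by positivity
  have happ : ∀ i : ℕ, ∃ μ : DD →₀ ℝ, ‖S (c0unit i) - cl μ‖ < η := by
    intro i
    have h1 : S (c0unit i) ∈ closure ((LinearMap.range cl : Submodule ℝ XX) : Set XX) := hS _
    rw [Metric.mem_closure_iff] at h1
    obtain ⟨w, ⟨μ, rfl⟩, hw⟩ := h1 η hη0
    exact ⟨μ, by rwa [dist_eq_norm] at hw⟩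
  choose μ hμ using happ
  obtain ⟨ε, hε, hsum⟩ := exists_signs (fun i => QQ (μ i)) n
  -- lower bound for each term
  have h1 : ∀ i, (c/2)^2 ≤ nsq (QQ (μ i)) := by
    intro i
    have h2 : c ≤ ‖S (c0unit i)‖ := by
      have := hc' (c0unit i)
      have := norm_c0unit i
      nlinarith
    have h3 : ‖S (c0unit i)‖ ≤ ‖S (c0unit i) - cl (μ i)‖ + ‖cl (μ i)‖ := by
      have := norm_add_le (S (c0unit i) - cl (μ i)) (cl (μ i))
      simpa using this
    have h4 := hμ i
    have h5 : η ≤ c / 2 := min_le_left _ _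
    have h6 := norm_cl_le (μ i)
    have h7 : c / 2 ≤ Real.sqrt (nsq (QQ (μ i))) := by linarith
    calc (c/2)^2 ≤ (Real.sqrt (nsq (QQ (μ i))))^2 := pow_le_pow_left₀ (by positivity) h7 2
      _ = nsq (QQ (μ i)) := Real.sq_sqrt (nsq_nonneg _)
  have h2 : n * (c/2)^2 ≤ nsq (QQ (∑ i ∈ Finset.range n, ε i • μ i)) := by
    have e : QQ (∑ i ∈ Finset.range n, ε i • μ i) = ∑ i ∈ Finset.range n, ε i • QQ (μ i) := by
      rw [map_sum]; exact Finset.sum_congr rfl fun i _ => by rw [map_smul]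
    rw [e]
    refine le_trans ?_ hsum
    calc (n:ℝ) * (c/2)^2 = ∑ i ∈ Finset.range n, (c/2)^2 := by simp
      _ ≤ _ := Finset.sum_le_sum fun i _ => h1 i
  have h3 : ‖cl (∑ i ∈ Finset.range n, ε i • μ i)‖ ≤ ‖S‖ + 1 := by
    have e1 : cl (∑ i ∈ Finset.range n, ε i • μ i) = 
        S (∑ i ∈ Finset.range n, ε i • c0unit i) - ∑ i ∈ Finset.range n, ε i • (S (c0unit i) - cl (μ i)) := by
      rw [map_sum, map_sum, ← Finset.sum_sub_distrib]
      refine Finset.sum_congr rfl fun i _ => ?_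
      rw [map_smul, map_smul, smul_sub]; abel
    rw [e1]
    refine (norm_sub_le _ _).trans (add_le_add ?_ ?_)
    · refine (S.le_opNorm _).trans ?_
      have := norm_sum_c0 hε n
      have := norm_nonneg S
      nlinarith
    · refine (norm_sum_le _ _).trans ?_
      calc ∑ i ∈ Finset.range n, ‖ε i • (S (c0unit i) - cl (μ i))‖ ≤ ∑ i ∈ Finset.range n, 1 / (n:ℝ) := by
            refine Finset.sum_le_sum fun i _ => ?_
            have h4 : ‖ε i‖ = 1 := by rcases hε i with h | h <;> rw [h] <;> simp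
            rw [norm_smul, h4, one_mul]
            exact (hμ i).le.trans (min_le_right _ _)
        _ = 1 := by
            rw [Finset.sum_const, Finset.card_range, nsmul_eq_mul]
            field_simp
  have h4 := le_norm_cl (∑ i ∈ Finset.range n, ε i • μ i)
  have h5 : Real.sqrt (nsq (QQ (∑ i ∈ Finset.range n, ε i • μ i))) ≤ 26 * (‖S‖ + 1) := by linarith
  have h6 : nsq (QQ (∑ i ∈ Finset.range n, ε i • μ i)) ≤ (26 * (‖S‖ + 1))^2 := by
    rw [← Real.sq_sqrt (nsq_nonneg (QQ (∑ i ∈ Finset.range n, ε i • μ i)))]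
    exact pow_le_pow_left₀ (Real.sqrt_nonneg _) h5 2
  rw [div_lt_iff₀ (by positivity)] at hn
  nlinarith

end Pool.Agent.Hhelper28.Rosenthal
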